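import Pool.Agent.Work.MP_223b32_es.Interface
import Pool.Agent.Work.MP_223b32_tc_helper10.PC

/-!
# FORM: the bit
-/

namespace Pool.Agent.Work.ES

open Finset Polynomial

namespace FORM

/-- `∏ (x - b) = b - b ^ Q` over a field with `Q` elements. -/
theorem prod_sub {E Ω : Type} [Field E] [Fintype E] [Field Ω] (σ : E →+* Ω)
    (hodd : Odd (Fintype.card E)) (b : Ω) : ∏ x : E, (σ x - b) = b - b ^ Fintype.card E := by
  classical
  have h1 : (X ^ Fintype.card E - X : E[X]) = ∏ x : E, (X - C x) := by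
    have hs : (X ^ Fintype.card E - X : E[X]).Splits := by
      rw [splits_iff_card_roots, FiniteField.roots_X_pow_card_sub_X,
        FiniteField.X_pow_card_sub_X_natDegree_eq E Fintype.one_lt_card]
      rfl
    have hm : (X ^ Fintype.card E - X : E[X]).Monic := by
      apply monic_X_pow_sub
      rw [degree_X]
      exact_mod_cast Fintype.one_lt_card
    rw [hs.eq_prod_roots_of_monic hm, FiniteField.roots_X_pow_card_sub_X]
    rfl
  have h2 := congrArg (fun p : E[X] => p.eval₂ σ b) h1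
  simp only [eval₂_sub, eval₂_X_pow, eval₂_X, eval₂_finsetProd, eval₂_C] at h2
  have h3 : ∏ x : E, (σ x - b) = (-1) ^ Fintype.card E * ∏ x : E, (b - σ x) := by
    rw [← Finset.card_univ, ← Finset.prod_const, ← Finset.prod_mul_distrib]
    exact Finset.prod_congr rfl fun x _ => by ring
  rw [h3, ← h2, hodd.neg_one_pow]
  ring

/-- The iterated Frobenius endomorphism over `F`. -/
theorem exists_frob (F Ω : Type) [Field F] [Fintype F] [Field Ω] [Algebra F Ω] (r : ℕ) :
    ∃ φ : Ω →ₐ[F] Ω, ∀ x, φ x = x ^ (Fintype.card F ^ r) := by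
  induction r with
  | zero => exact ⟨AlgHom.id F Ω, fun x => by simp⟩
  | succ r ih =>
    obtain ⟨φ, hφ⟩ := ih
    refine ⟨(FiniteField.frobeniusAlgHom F Ω).comp φ, fun x => ?_⟩
    rw [AlgHom.comp_apply, hφ, FiniteField.coe_frobeniusAlgHom]
    change (x ^ Fintype.card F ^ r) ^ Fintype.card F = _
    rw [← pow_mul, pow_succ]

theorem cubic {R : Type} [CommRing R] (X z v o : R) (h : o ^ 2 + o + 1 = 0) :
    (X - (z + v)) * (X - (o * z + o ^ 2 * v)) * (X - (o ^ 2 * z + o * v)) =
      X ^ 3 - 3 * (z * v) * X - (z ^ 3 + v ^ 3) := by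
  linear_combination (X - z - v) * (-X * (z + v) + (o - 1) * (z ^ 2 + v ^ 2) +
    (o ^ 2 - o + 1) * z * v) * h

theorem cubic2 {R : Type} [CommRing R] (p q o : R) (h : o ^ 2 + o + 1 = 0) :
    (p - q) * (o * p - o ^ 2 * q) * (o ^ 2 * p - o * q) = p ^ 3 - q ^ 3 := by
  linear_combination (p - q) * ((o - 1) * (p ^ 2 + q ^ 2) - (o ^ 2 - o + 1) * p * q) * h

/-- A primitive cube root of unity. -/
theorem exists_omega (F : Type) [Field F] [Fintype F] (h : Fintype.card F % 6 = 1) :
    ∃ o : F, o ^ 2 + o + 1 = 0 := by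
  classical
  have h3 : 3 ∣ Fintype.card Fˣ := by
    rw [Fintype.card_units]
    omega
  have : Fact (Nat.Prime 3) := ⟨Nat.prime_three⟩
  obtain ⟨u, hu⟩ := exists_prime_orderOf_dvd_card 3 h3
  have hu3 : (u : F) ^ 3 = 1 := by
    have h1 := pow_orderOf_eq_one u
    rw [hu] at h1
    have h2 := congrArg Units.val h1
    simpa using h2
  have hu1 : (u : F) ≠ 1 := by
    intro h1
    have : u = 1 := Units.ext h1
    rw [this, orderOf_one] at hu
    norm_num at hu
  refine ⟨u, ?_⟩
  have h4 : ((u : F) - 1) * ((u : F) ^ 2 + u + 1) = 0 := by linear_combination hu3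
  exact (mul_eq_zero.1 h4).resolve_left (sub_ne_zero.2 hu1)

end FORM

open FORM in
theorem stmt_FORM : Stmt_FORM := by
  intro F K E _ _ _ _ _ _ _ _ _ _ hq hnodd hrodd c w hw hdeg hD
  classical
  set q := Fintype.card F with hqdef
  set r := Module.finrank F E with hr
  have hcardE : Fintype.card E = q ^ r := Module.card_eq_pow_finrank
  have hqodd : Odd q := by rw [Nat.odd_iff]; omega
  have hEodd : Odd (Fintype.card E) := by rw [hcardE]; exact hqodd.pow
  have hq3 : q % 3 = 1 := by omega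
  have hQ3 : 3 ∣ q ^ r - 1 := by
    have h1 : q ^ r ≡ 1 ^ r [MOD 3] := Nat.ModEq.pow r (by rw [Nat.ModEq]; omega)
    rw [one_pow] at h1
    exact (Nat.modEq_iff_dvd' (Nat.one_le_pow _ _ (by omega))).1 h1.symm
  obtain ⟨o, ho⟩ := exists_omega F hq
  have hw0 : w ≠ 0 := hw.1
  set A : K := Aw F w r with hA
  have hA0 : A ≠ 0 := pow_ne_zero _ hw0
  have hA3 : w ^ (q ^ r) = w * A ^ 3 := by
    rw [hA, Aw, ← pow_mul, ← pow_succ', Nat.div_mul_cancel hQ3,
      Nat.sub_add_cancel (Nat.one_le_pow _ _ (by omega))]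
  set c' : K := algebraMap F K c with hc'
  set a : K := hc c w with ha
  have haeq : a = w + c' ^ 3 / w := by rw [ha, hc, map_pow]
  set e : K := w - c' ^ 3 / (w * A ^ 3) with he
  -- the two products over `E`, for an embedding of `K`
  have hT : ∀ (Ω : Type) [Field Ω] [Algebra F Ω] (τ : K →ₐ[F] Ω) (σ : E →ₐ[F] Ω),
      ∏ t : E, (σ t - τ a) = τ ((1 - A ^ 3) * e) := by
    intro Ω _ _ τ σ
    obtain ⟨φ, hφ⟩ := exists_frob F Ω r
    have h1 := prod_sub (σ : E →+* Ω) hEodd (τ a)
    have h2 : (τ a) ^ Fintype.card E = φ (τ a) := by rw [hφ, hcardE]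
    have h3 : φ (τ w) = τ w * τ A ^ 3 := by
      rw [hφ, ← map_pow, hA3, map_mul, map_pow]
    have h4 : φ (τ c') = τ c' := by
      rw [hc', AlgHom.commutes, AlgHom.commutes]
    have hw' : τ w ≠ 0 := (map_ne_zero τ).2 hw0
    have hA' : τ A ≠ 0 := (map_ne_zero τ).2 hA0
    calc ∏ t : E, (σ t - τ a) = τ a - (τ a) ^ Fintype.card E := h1
      _ = τ a - φ (τ a) := by rw [h2]
      _ = τ ((1 - A ^ 3) * e) := by
        rw [haeq, he]
        simp only [map_add, map_sub, map_mul, map_div₀, map_pow, map_one, h3, h4]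
        field_simp
        ring
  have hG : ∀ (Ω : Type) [Field Ω] [IsAlgClosed Ω] [Algebra F Ω] (τ : K →ₐ[F] Ω) (σ : E →ₐ[F] Ω),
      ∏ x : E, (σ (aeval x (mm c)) - τ a) = τ ((1 - A) ^ 3 * e) := by
    intro Ω _ _ _ τ σ
    obtain ⟨φ, hφ⟩ := exists_frob F Ω r
    obtain ⟨z, hz⟩ := IsAlgClosed.exists_pow_nat_eq (τ w) (n := 3) (by norm_num)
    have hw' : τ w ≠ 0 := (map_ne_zero τ).2 hw0
    have hA' : τ A ≠ 0 := (map_ne_zero τ).2 hA0
    have hz0 : z ≠ 0 := by
      rintro rfl
      apply hw'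
      rw [← hz]
      norm_num
    set o' : Ω := algebraMap F Ω o with ho'
    have ho2 : o' ^ 2 + o' + 1 = 0 := by
      have := congrArg (algebraMap F Ω) ho
      simpa using this
    set v : Ω := τ c' / z with hv
    have hzv : z * v = τ c' := by rw [hv]; field_simp
    have hv3 : v ^ 3 = τ c' ^ 3 / τ w := by rw [hv, div_pow, hz]
    have hφz : φ z = z * τ A := by
      rw [hφ, hA, Aw, map_pow, ← hz, ← pow_mul, ← pow_succ', Nat.mul_div_cancel' hQ3,
        Nat.sub_add_cancel (Nat.one_le_pow _ _ (by omega))]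
    have hφc : φ (τ c') = τ c' := by
      rw [hc', AlgHom.commutes, AlgHom.commutes]
    have hφv : φ v = v / τ A := by
      rw [hv, map_div₀, hφc, hφz]
      field_simp
    have hφo : φ o' = o' := by rw [ho', AlgHom.commutes]
    have hpow : ∀ b : Ω, b ^ Fintype.card E = φ b := fun b => by rw [hφ, hcardE]
    have h1 : ∀ x : E, σ (aeval x (mm c)) - τ a =
        (σ x - (z + v)) * (σ x - (o' * z + o' ^ 2 * v)) * (σ x - (o' ^ 2 * z + o' * v)) := by
      intro x
      rw [cubic _ _ _ _ ho2, hz, hv3, hzv, haeq]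
      simp only [mm, map_sub, map_mul, map_pow, aeval_X, aeval_C, map_add, map_div₀,
        AlgHom.commutes, hc', map_ofNat]
    rw [Finset.prod_congr rfl fun x _ => h1 x, Finset.prod_mul_distrib, Finset.prod_mul_distrib]
    have h2 := fun b : Ω => prod_sub (σ : E →+* Ω) hEodd b
    have h2' : ∀ b : Ω, ∏ x : E, (σ x - b) = b - φ b := fun b => by
      rw [← hpow]
      exact h2 b
    rw [h2', h2', h2']
    simp only [map_add, map_mul, map_pow, hφo, hφz, hφv]
    have h3 : (z + v - (z * τ A + v / τ A)) *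
        (o' * z + o' ^ 2 * v - (o' * (z * τ A) + o' ^ 2 * (v / τ A))) *
        (o' ^ 2 * z + o' * v - (o' ^ 2 * (z * τ A) + o' * (v / τ A))) =
        (1 - τ A) ^ 3 * ((z - v / τ A) * (o' * z - o' ^ 2 * (v / τ A)) *
          (o' ^ 2 * z - o' * (v / τ A))) := by
      field_simp
      ring
    rw [h3, cubic2 _ _ _ ho2, hz, div_pow, hv3, he]
    simp only [map_sub, map_mul, map_div₀, map_pow, map_one]
    rw [div_div]
  -- the product is a norm
  have hU : (∏ t : E, aeval t (minpoly F a)) * ∏ x : E, aeval (aeval x (mm c)) (minpoly F a) =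
      algebraMap F E (Algebra.norm F ((1 - A ^ 3) * e * ((1 - A) ^ 3 * e))) := by
    have hσ : Nonempty (E →ₐ[F] AlgebraicClosure F) := ⟨IsAlgClosed.lift⟩
    obtain ⟨σ⟩ := hσ
    apply (σ : E →+* AlgebraicClosure F).injective
    have h0 : ∀ x : E, σ (aeval x (minpoly F a)) =
        ∏ τ : K →ₐ[F] AlgebraicClosure F, (σ x - τ a) := by
      intro x
      rw [TC.PC.prod_emb, hdeg, Nat.div_self Module.finrank_pos, pow_one, ← aeval_algHom_apply]
    change σ _ = σ _
    rw [map_mul, map_prod, map_prod, AlgHom.commutes,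
      Algebra.norm_eq_prod_embeddings F (AlgebraicClosure F)]
    simp_rw [h0]
    rw [Finset.prod_comm, Finset.prod_comm (γ := E), ← Finset.prod_mul_distrib]
    refine Finset.prod_congr rfl fun τ _ => ?_
    rw [hT _ τ σ, hG _ τ σ, ← map_mul]
  -- the product is not zero
  have hne : (1 - A ^ 3) * e ≠ 0 := by
    intro h0
    obtain ⟨σ⟩ : Nonempty (E →ₐ[F] AlgebraicClosure F) := ⟨IsAlgClosed.lift⟩
    obtain ⟨τ⟩ : Nonempty (K →ₐ[F] AlgebraicClosure F) := ⟨IsAlgClosed.lift⟩
    have h1 := hT _ τ σ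
    rw [h0, map_zero, Finset.prod_eq_zero_iff] at h1
    obtain ⟨t, -, ht⟩ := h1
    apply hD t
    apply (σ : E →+* AlgebraicClosure F).injective
    change σ _ = σ _
    rw [map_zero, ← aeval_algHom_apply, sub_eq_zero.1 ht, aeval_algHom_apply, minpoly.aeval,
      map_zero]
  have he0 : e ≠ 0 := right_ne_zero_of_mul hne
  have hA1 : 1 - A ≠ 0 := by
    intro h0
    apply left_ne_zero_of_mul hne
    linear_combination (1 + A + A ^ 2) * h0
  have hF2 : ringChar F ≠ 2 := by
    intro h2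
    have h3 := FiniteField.even_card_of_char_two h2
    omega
  have hchF : ∀ y : F, quadraticChar F y ^ r = quadraticChar F y := by
    intro y
    by_cases hy : y = 0
    · rw [hy, quadraticChar_zero, zero_pow hrodd.pos.ne']
    · obtain ⟨j, hj⟩ := hrodd
      rw [hj, pow_succ, pow_mul, quadraticChar_sq_one hy, one_pow, one_mul]
  rw [hU, TC.PC.char_norm (F := F) (E := E) hF2, Algebra.norm_algebraMap, map_pow, hchF,
    ← TC.PC.char_norm (F := F) (E := K) hF2]
  have hfac : (1 - A ^ 3) * e * ((1 - A) ^ 3 * e) =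
      ((1 - A) ^ 2 * e) ^ 2 * (1 + A + A ^ 2) := by ring
  rw [hfac, map_mul, map_pow, quadraticChar_sq_one (mul_ne_zero (pow_ne_zero 2 hA1) he0), one_mul]

end Pool.Agent.Work.ES
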