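import Pool.Agent.Work.MP_223b32_es.Interface

/-!
# PTS: the character sum modulo `4`
-/

namespace Pool.Agent.Work.ES

open Finset Polynomial

namespace PTS

/-- Irreducibility of the outer polynomial. -/
theorem irr_of_comp {F : Type} [Field F] {m D : F[X]} (hm : m.natDegree = 3)
    (hD : 1 ≤ D.natDegree) (h : Irreducible (D.comp m)) : Irreducible D := by
  constructor
  · intro hu
    have := natDegree_eq_zero_of_isUnit hu
    omega
  · intro A B hAB
    have key : ∀ A : F[X], A ≠ 0 → IsUnit (A.comp m) → IsUnit A := by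
      intro A hA hu
      have h1 := natDegree_eq_zero_of_isUnit hu
      rw [natDegree_comp, hm] at h1
      have h2 : A.natDegree = 0 := by omega
      rw [isUnit_iff_degree_eq_zero, degree_eq_natDegree hA, h2]
      rfl
    have hD0 : D ≠ 0 := by
      rintro rfl
      simp at hD
    have hA : A ≠ 0 := fun h0 => hD0 (by rw [hAB, h0, zero_mul])
    have hB : B ≠ 0 := fun h0 => hD0 (by rw [hAB, h0, mul_zero])
    have h1 := h.isUnit_or_isUnit (show D.comp m = A.comp m * B.comp m by rw [hAB, mul_comp])
    rcases h1 with h1 | h1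
    · exact Or.inl (key A hA h1)
    · exact Or.inr (key B hB h1)

/-- Wilson's theorem. -/
theorem prod_ne_zero_eq {E : Type} [Field E] [Fintype E] [DecidableEq E] :
    ∏ s ∈ univ.erase (0 : E), s = -1 := by
  have h1 := FiniteField.prod_univ_units_id_eq_neg_one (K := E)
  have h2 := congrArg (fun u : Eˣ => (u : E)) h1
  simp only [Units.coe_prod, Units.val_neg, Units.val_one] at h2
  rw [← h2]
  symm
  refine Finset.prod_bij (fun (u : Eˣ) _ => (u : E)) ?_ ?_ ?_ ?_
  · intro u _
    exact Finset.mem_erase.2 ⟨u.ne_zero, Finset.mem_univ _⟩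
  · intro u _ v _ h
    exact Units.ext h
  · intro s hs
    exact ⟨Units.mk0 s (Finset.mem_erase.1 hs).1, Finset.mem_univ _, rfl⟩
  · intro u _
    rfl

theorem prod_erase_sub {E : Type} [Field E] [Fintype E] [DecidableEq E] (u : E) :
    ∏ t ∈ univ.erase u, (u - t) = -1 := by
  rw [← prod_ne_zero_eq]
  refine Finset.prod_bij (fun t _ => u - t) ?_ ?_ ?_ ?_
  · intro t ht
    exact Finset.mem_erase.2 ⟨sub_ne_zero.2 (Finset.mem_erase.1 ht).1.symm, Finset.mem_univ _⟩
  · intro t _ t' _ h
    exact sub_right_injective h
  · intro s hs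
    refine ⟨u - s, Finset.mem_erase.2 ⟨?_, Finset.mem_univ _⟩, by ring⟩
    intro h
    exact (Finset.mem_erase.1 hs).1 (by linear_combination -h)
  · intro t _
    rfl

end PTS

open PTS in
theorem stmt_PTS (hCSM : Stmt_CSM) (hZER : Stmt_ZER) : Stmt_PTS := by
  intro F E _ _ _ _ _ _ hF n m D hn hDm hDn hmm hm3 hirr
  set q := Fintype.card F with hqdef
  set r := Module.finrank F E with hr
  have hcardE : Fintype.card E = q ^ r := Module.card_eq_pow_finrank
  have hE : ringChar E ≠ 2 := by rwa [← Algebra.ringChar_eq F E]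
  have hqodd : Odd q := Nat.odd_iff.2 (FiniteField.odd_card_of_char_ne_two hF)
  have hQodd : Odd (Fintype.card E) := Nat.odd_iff.2 (FiniteField.odd_card_of_char_ne_two hE)
  have hn1 : 1 ≤ n := hn.pos
  have hDirr : Irreducible D := irr_of_comp hm3 (by omega) hirr
  set v : E × E → E := fun p => aeval p.2 D * (aeval p.1 m - p.2) with hv
  have hNN : NN E m D = ∑ p : E × E, quadraticChar E (v p) := by
    rw [Fintype.sum_prod_type, NN]
  set S := univ.filter (fun p : E × E => v p ≠ 0) with hS
  -- the numbers of zeros
  have hz : (univ.filter fun t : E => aeval t D = 0).card = if n ∣ r then n else 0 := by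
    rw [hZER F E D hDm hDirr, hDn]
  have hy : (univ.filter fun x : E => aeval (aeval x m) D = 0).card =
      if 3 * n ∣ r then 3 * n else 0 := by
    have h1 := hZER F E (D.comp m) (hDm.comp hmm (by omega)) hirr
    rw [natDegree_comp, hDn, hm3, mul_comm n 3] at h1
    rw [← h1]
    congr 1
    ext x
    simp only [Finset.mem_filter, Finset.mem_univ, true_and, aeval_comp]
  set z := (univ.filter fun t : E => aeval t D = 0).card with hzdef
  set y := (univ.filter fun x : E => aeval (aeval x m) D = 0).card with hydef
  have hyz : (y : ℤ) - z = cr n r := by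
    rw [hy, hz, cr]
    by_cases h1 : 3 * n ∣ r
    · have h2 : n ∣ r := (Dvd.intro_left 3 rfl).trans h1
      rw [if_pos h1, if_pos h2, if_pos h1]
      push_cast
      ring
    · rw [if_neg h1, if_neg h1]
      by_cases h2 : n ∣ r
      · rw [if_pos h2, if_pos h2]
        push_cast
        ring
      · rw [if_neg h2, if_neg h2]
        simp
  -- the number of pairs
  have hScard : (S.card : ℤ) = Fintype.card E * Fintype.card E - Fintype.card E * z -
      Fintype.card E + y := by
    have h1 : S.card = ∑ x : E, ((univ.filter fun t : E => aeval t D ≠ 0).erase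
        (aeval x m)).card := by
      rw [hS, Finset.card_filter, Fintype.sum_prod_type]
      refine Finset.sum_congr rfl fun x _ => ?_
      rw [← Finset.card_filter]
      congr 1
      ext t
      simp only [hv, Finset.mem_filter, Finset.mem_univ, true_and, Finset.mem_erase,
        mul_ne_zero_iff, sub_ne_zero]
      tauto
    have h2 : ∀ x : E, ((((univ.filter fun t : E => aeval t D ≠ 0).erase
        (aeval x m)).card : ℕ) : ℤ) = (Fintype.card E - z : ℤ) -
          (if aeval (aeval x m) D ≠ 0 then 1 else 0) := by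
      intro x
      have h3 : ((univ.filter fun t : E => aeval t D ≠ 0).card : ℤ) = Fintype.card E - z := by
        have h4 : (univ.filter fun t : E => aeval t D = 0).card +
            (univ.filter fun t : E => aeval t D ≠ 0).card = Fintype.card E := by
          rw [← Finset.card_univ]
          exact Finset.card_filter_add_card_filter_not _
        rw [hzdef]
        omega
      by_cases h4 : aeval (aeval x m) D ≠ 0
      · have h5 : aeval x m ∈ univ.filter fun t : E => aeval t D ≠ 0 := by simp [h4]
        have h6 := Finset.card_erase_add_one h5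
        rw [if_pos h4, ← h3, ← h6]
        push_cast
        ring
      · have h5 : aeval x m ∉ univ.filter fun t : E => aeval t D ≠ 0 := by simpa using h4
        rw [if_neg h4, Finset.erase_eq_of_notMem h5, h3, sub_zero]
    rw [h1]
    push_cast
    rw [Finset.sum_congr rfl fun x _ => h2 x, Finset.sum_sub_distrib, Finset.sum_const,
      Finset.card_univ, nsmul_eq_mul]
    have h3 : ∑ x : E, (if aeval (aeval x m) D ≠ 0 then (1 : ℤ) else 0) =
        Fintype.card E - y := by
      rw [Finset.sum_ite, Finset.sum_const_zero, add_zero, Finset.sum_const, nsmul_eq_mul, mul_one]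
      have h4 : (univ.filter fun x : E => aeval (aeval x m) D = 0).card +
          (univ.filter fun x : E => aeval (aeval x m) D ≠ 0).card = Fintype.card E := by
        rw [← Finset.card_univ]
        exact Finset.card_filter_add_card_filter_not _
      rw [hydef]
      omega
    rw [h3]
    ring
  set P := ∏ p ∈ S, v p with hP
  have hP0 : P ≠ 0 := Finset.prod_ne_zero_iff.2 fun p hp => (Finset.mem_filter.1 hp).2
  have hmod := hCSM E hE (E × E) v
  rw [← hNN, ← hS, ← hP] at hmod
  obtain ⟨k, hk⟩ := Int.modEq_iff_dvd.1 hmod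
  have hχ : quadraticChar E P = 1 ∨ quadraticChar E P = -1 := quadraticChar_dichotomy hP0
  refine ⟨?_, ?_, ?_⟩
  · rw [← hyz]
    apply Int.modEq_iff_dvd.2
    obtain ⟨j, hj⟩ := hQodd
    rw [hj] at hScard
    push_cast at hScard
    have e1 : (2 * (j : ℤ) + 1) * (2 * j + 1) = 2 * (2 * (j * j + j)) + 1 := by ring
    have e2 : (2 * (j : ℤ) + 1) * z = 2 * (j * z) + z := by ring
    rw [e1, e2] at hScard
    rcases hχ with h | h <;> rw [h] at hk <;> omega
  · intro hreven
    rw [← hyz]
    apply Int.modEq_iff_dvd.2
    -- the cardinality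
    obtain ⟨s, hs⟩ := hreven
    obtain ⟨i, hi⟩ : ∃ i, q ^ r = 4 * i + 1 := by
      obtain ⟨j, hj⟩ := hqodd
      have h1 : q ^ r = (q ^ 2) ^ s := by rw [← pow_mul]; congr 1; omega
      have h2 : (q ^ 2) ^ s ≡ 1 ^ s [MOD 4] := by
        apply Nat.ModEq.pow
        rw [hj]
        have : (2 * j + 1) ^ 2 = 4 * (j ^ 2 + j) + 1 := by ring
        rw [this, Nat.ModEq]
        omega
      rw [one_pow, ← h1] at h2
      refine ⟨q ^ r / 4, ?_⟩
      rw [Nat.ModEq] at h2
      omega
    have hχ1 : quadraticChar E P = 1 := by
      have hfrob : P ^ q = P := by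
        set φ := FiniteField.frobeniusAlgEquivOfAlgebraic F E with hφ
        have hφx : ∀ x, φ x = x ^ q := fun x => by
          rw [hφ, FiniteField.coe_frobeniusAlgEquivOfAlgebraic]
        have hvφ : ∀ p : E × E, v (φ p.1, φ p.2) = φ (v p) := by
          intro p
          simp only [hv, map_mul, map_sub]
          rw [← aeval_algHom_apply φ, ← aeval_algHom_apply φ]
        rw [← hφx, hP, map_prod]
        refine Finset.prod_equiv (Equiv.prodCongr φ.toEquiv φ.toEquiv) ?_ ?_
        · intro p
          simp only [hS, Finset.mem_filter, Finset.mem_univ, true_and]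
          change v p ≠ 0 ↔ v (φ p.1, φ p.2) ≠ 0
          rw [hvφ, map_ne_zero_iff φ φ.injective]
        · intro p _
          exact (hvφ p).symm
      have h1 : P ^ (q - 1) = 1 := by
        have h2 : P ^ (q - 1) * P = 1 * P := by
          rw [← pow_succ, Nat.sub_add_cancel hqodd.pos, hfrob, one_mul]
        exact mul_right_cancel₀ hP0 h2
      have h3 : (q - 1) ∣ Fintype.card E / 2 := by
        have h4 : Fintype.card E / 2 = (q ^ r - 1) / 2 := by rw [hcardE]; omega
        rw [h4]
        have h5 : (q ^ 2 - 1) ∣ q ^ r - 1 := by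
          have : q ^ r = (q ^ 2) ^ s := by rw [← pow_mul]; congr 1; omega
          rw [this]
          simpa using Nat.sub_dvd_pow_sub_pow (q ^ 2) 1 s
        obtain ⟨u, hu⟩ := h5
        obtain ⟨j, hj⟩ := hqodd
        have h6 : q ^ 2 - 1 = (q - 1) * (2 * (j + 1)) := by
          rw [hj]
          have e1 : (2 * j + 1) ^ 2 = 2 * j * (2 * (j + 1)) + 1 := by ring
          rw [e1]
          simp
        rw [hu, h6]
        refine ⟨(j + 1) * u, ?_⟩
        have e2 : (q - 1) * (2 * (j + 1)) * u = 2 * ((q - 1) * ((j + 1) * u)) := by ring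
        rw [e2, Nat.mul_div_cancel_left _ (by norm_num)]
      have h4 : ((quadraticChar E P : ℤ) : E) = 1 := by
        rw [quadraticChar_eq_pow_of_char_ne_two' hE]
        obtain ⟨u, hu⟩ := h3
        rw [hu, pow_mul, h1, one_pow]
      rcases hχ with h | h
      · exact h
      · rw [h] at h4
        exfalso
        apply Ring.neg_one_ne_one_of_char_ne_two hE
        simpa using h4
    rw [hcardE, hi] at hScard
    push_cast at hScard
    have e1 : (4 * (i : ℤ) + 1) * (4 * i + 1) = 4 * (4 * (i * i) + 2 * i) + 1 := by ring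
    have e2 : (4 * (i : ℤ) + 1) * z = 4 * (i * z) + z := by ring
    rw [e1, e2] at hScard
    rw [hχ1] at hk
    omega
  · intro hrodd hnr
    have hz0 : z = 0 := by rw [hz, if_neg hnr]
    have hy0 : y = 0 := by
      rw [hy, if_neg fun h => hnr ((Dvd.intro_left 3 rfl).trans h)]
    have hD0 : ∀ t : E, aeval t D ≠ 0 := by
      intro t ht
      have h1 := Finset.card_eq_zero.1 (hzdef.symm.trans hz0)
      have h2 : t ∈ univ.filter fun t : E => aeval t D = 0 := by simp [ht]
      rw [h1] at h2
      simp at h2
    refine ⟨hD0, ?_⟩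
    set T := ∏ t : E, aeval t D with hT
    set G := ∏ x : E, aeval (aeval x m) D with hG
    have hT0 : T ≠ 0 := Finset.prod_ne_zero_iff.2 fun t _ => hD0 t
    have hG0 : G ≠ 0 := Finset.prod_ne_zero_iff.2 fun x _ => hD0 _
    have hPG : P * G = -T ^ Fintype.card E := by
      have h1 : P = ∏ x : E, ∏ t ∈ univ.erase (aeval x m), v (x, t) := by
        rw [hP, hS, Finset.prod_filter, Fintype.prod_prod_type]
        refine Finset.prod_congr rfl fun x _ => ?_
        rw [← Finset.prod_filter]
        refine Finset.prod_congr ?_ fun t _ => rfl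
        ext t
        simp only [hv, Finset.mem_filter, Finset.mem_univ, true_and, Finset.mem_erase,
          mul_ne_zero_iff, sub_ne_zero, and_true]
        exact ⟨fun h => h.2.symm, fun h => ⟨hD0 t, Ne.symm h⟩⟩
      rw [h1, hG, ← Finset.prod_mul_distrib]
      have h2 : ∀ x : E, (∏ t ∈ univ.erase (aeval x m), v (x, t)) * aeval (aeval x m) D = -T := by
        intro x
        simp only [hv]
        rw [Finset.prod_mul_distrib, prod_erase_sub, mul_assoc, mul_comm (-1 : E), ← mul_assoc,
          Finset.prod_erase_mul _ _ (Finset.mem_univ _), ← hT]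
        ring
      rw [Finset.prod_congr rfl fun x _ => h2 x, Finset.prod_const, Finset.card_univ,
        hQodd.neg_pow]
    have hχPG : quadraticChar E P = quadraticChar E (-1) * quadraticChar E (T * G) := by
      have h1 := congrArg (quadraticChar E) hPG
      have h2 : quadraticChar E (T ^ Fintype.card E) = quadraticChar E T := by
        obtain ⟨j, hj⟩ := hQodd
        rw [map_pow, hj, pow_succ, pow_mul, quadraticChar_sq_one hT0, one_pow, one_mul]
      have h3 : quadraticChar E G ^ 2 = 1 := quadraticChar_sq_one hG0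
      rw [← neg_one_mul (T ^ Fintype.card E), map_mul, map_mul, h2] at h1
      rw [map_mul]
      calc quadraticChar E P = quadraticChar E P * quadraticChar E G ^ 2 := by rw [h3, mul_one]
        _ = quadraticChar E P * quadraticChar E G * quadraticChar E G := by ring
        _ = _ := by rw [h1]; ring
    have hTG := quadraticChar_dichotomy (mul_ne_zero hT0 hG0)
    have hneg : (Fintype.card E % 4 = 1 ∧ quadraticChar E (-1) = 1) ∨
        (Fintype.card E % 4 = 3 ∧ quadraticChar E (-1) = -1) := by
      have h1 : Fintype.card E % 2 = 1 := Nat.odd_iff.1 hQodd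
      have h0 : (-1 : E) ≠ 0 := neg_ne_zero.2 one_ne_zero
      by_cases h2 : Fintype.card E % 4 = 3
      · right
        refine ⟨h2, ?_⟩
        rcases quadraticChar_dichotomy h0 with h3 | h3
        · exfalso
          have h4 := (quadraticChar_one_iff_isSquare h0).1 h3
          exact (FiniteField.isSquare_neg_one_iff.1 h4) h2
        · exact h3
      · left
        exact ⟨by omega, (quadraticChar_one_iff_isSquare h0).2
          (FiniteField.isSquare_neg_one_iff.2 h2)⟩
    apply Int.modEq_iff_dvd.2
    rw [hz0, hy0] at hScard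
    rw [hχPG] at hk
    rcases hneg with ⟨h1, h2⟩ | ⟨h1, h2⟩
    · obtain ⟨i, hi⟩ : ∃ i, Fintype.card E = 4 * i + 1 := ⟨Fintype.card E / 4, by omega⟩
      rw [hi] at hScard
      push_cast at hScard
      have e1 : (4 * (i : ℤ) + 1) * (4 * i + 1) = 4 * (4 * (i * i) + 2 * i) + 1 := by ring
      rw [e1] at hScard
      rw [h2] at hk
      rcases hTG with h3 | h3 <;> rw [h3] at hk ⊢ <;> omega
    · obtain ⟨i, hi⟩ : ∃ i, Fintype.card E = 4 * i + 3 := ⟨Fintype.card E / 4, by omega⟩
      rw [hi] at hScard
      push_cast at hScard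
      have e1 : (4 * (i : ℤ) + 3) * (4 * i + 3) = 4 * (4 * (i * i) + 6 * i + 2) + 1 := by ring
      rw [e1] at hScard
      rw [h2] at hk
      rcases hTG with h3 | h3 <;> rw [h3] at hk ⊢ <;> omega

end Pool.Agent.Work.ES
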